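import Mathlib
import Pool.Agent.H262.FK5

set_option autoImplicit false

/-!
Lipschitz free `p`-spaces over metric spaces have the Schur `p`-property for `0 < p < 1`.
-/

namespace Pool.Agent.Results.MP_80c44a_an.SchurAllMetric

open Pool.Agent.H262.FreeP

/-- Lipschitz free `p`-spaces in the sense of `IsFreePSpace` exist, so that `result` below is not
vacuous. -/
theorem exists_space (𝕜 : Type) [RCLike 𝕜] (p : ℝ) (hp : 0 < p) (hp1 : p < 1)
    (M : Type) [MetricSpace M] (o : M) :
    ∃ (F : Type) (_ : AddCommGroup F) (_ : Module 𝕜 F) (N : F → ℝ) (δ : M → F),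
      IsFreePSpace 𝕜 p M o F N δ :=
  Pool.Agent.H262.FP.exists_free hp hp1.le o

/-- Let `0 < p < 1`, and let `M` be any metric space (in particular any bounded complete discrete
one). The Lipschitz free `p`-space `F_p(M)` has the Schur `p`-property, for real or complex
scalars. -/
theorem result (𝕜 : Type) [RCLike 𝕜] (p : ℝ) (hp : 0 < p) (hp1 : p < 1)
    (M : Type) [MetricSpace M] (o : M) (F : Type) [AddCommGroup F] [Module 𝕜 F]
    (N : F → ℝ) (δ : M → F) (hF : IsFreePSpace 𝕜 p M o F N δ) : SchurP 𝕜 p F N :=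
  Pool.Agent.H262.FP.schur hp hp1 hF

end Pool.Agent.Results.MP_80c44a_an.SchurAllMetric
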